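import Mathlib

namespace Pool.Agent.Results.MP_b95629_nt.IntegerRatio

/-- Basic facts for a solution with `2 ≤ x < y`, `2 ≤ z`. -/
lemma basic {x y z : ℤ} (hx : 2 ≤ x) (hxy : x < y)
    (h : (x ^ 2 - 1) * (y ^ 2 - 1) = (z ^ 2 - 1) ^ 2) : 0 < x * y - z ^ 2 := by
  have h1 : (x * y - 1) ^ 2 = (z ^ 2 - 1) ^ 2 + (y - x) ^ 2 := by linear_combination h
  have h2 : (z ^ 2 - 1) ^ 2 < (x * y - 1) ^ 2 := by
    have : 0 < (y - x) ^ 2 := by
      have : 0 < y - x := by linarith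
      positivity
    linarith
  have h3 : 0 ≤ x * y - 1 := by nlinarith
  have h4 : z ^ 2 - 1 < x * y - 1 := lt_of_pow_lt_pow_left₀ 2 h3 h2
  linarith

/-- The key upper bound `2 (x^2 - 1) (x y - z^2) < z^2`. -/
lemma upper {x y z m : ℤ} (hx : 2 ≤ x) (hxy : x < y)
    (h : (x ^ 2 - 1) * (y ^ 2 - 1) = (z ^ 2 - 1) ^ 2) (hm : m = x * y - z ^ 2) (hm3 : 3 ≤ m)
    (hz : 2 ≤ z) : 2 * (x ^ 2 - 1) * m < z ^ 2 := by
  have e1 : m * (m + 2 * z ^ 2 - 2) = (y - x) ^ 2 := by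
    subst hm; linear_combination h
  have e2 : (y - x) ^ 2 < y ^ 2 := by
    have : 0 < y - x := by linarith
    nlinarith
  have e3 : x ^ 2 * (m * (m + 2 * z ^ 2 - 2)) < (z ^ 2 + m) ^ 2 := by
    have : (z ^ 2 + m) ^ 2 = x ^ 2 * y ^ 2 := by subst hm; ring
    rw [this, e1]
    exact mul_lt_mul_of_pos_left e2 (by positivity)
  have e4 : m ^ 2 ≤ x ^ 2 * (m * (m - 2)) := by
    have a1 : (4 : ℤ) ≤ x ^ 2 := by nlinarith
    have a2 : 0 ≤ m * (m - 2) := by
      have : 0 ≤ m - 2 := by linarith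
      have : 0 ≤ m := by linarith
      positivity
    nlinarith
  have e5 : 2 * (x ^ 2 - 1) * m * z ^ 2 < z ^ 2 * z ^ 2 := by nlinarith
  have hz2 : 0 < z ^ 2 := by positivity
  exact lt_of_mul_lt_mul_right e5 hz2.le

lemma caseA {x y z : ℤ} (hx : 2 ≤ x) (hxy : x < y) (hz : 2 ≤ z)
    (h : (x ^ 2 - 1) * (y ^ 2 - 1) = (z ^ 2 - 1) ^ 2) (hd : z ∣ y - x) : y - x = 2 * z := by
  obtain ⟨m, hm⟩ : ∃ m, m = x * y - z ^ 2 := ⟨_, rfl⟩
  have hm0 : 0 < m := by rw [hm]; exact basic hx hxy h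
  obtain ⟨l, hl⟩ := hd
  have e1 : m * (m + 2 * z ^ 2 - 2) = (y - x) ^ 2 := by
    subst hm; linear_combination h
  have d1 : z ^ 2 ∣ m * (m - 2) := by
    refine ⟨l ^ 2 - 2 * m, ?_⟩
    rw [hl] at e1
    linear_combination e1
  rcases lt_trichotomy m 2 with h2 | h2 | h2
  · have : m = 1 := by omega
    subst this
    exfalso
    have : z ^ 2 ∣ 1 := dvd_neg.mp (by simpa using d1)
    have := Int.le_of_dvd one_pos this
    nlinarith
  · subst h2
    have : (y - x) ^ 2 = (2 * z) ^ 2 := by rw [← e1]; ring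
    have hyx : 0 ≤ y - x := by linarith
    exact (pow_left_inj₀ hyx (by linarith) two_ne_zero).mp this
  · exfalso
    have hm3 : 3 ≤ m := h2
    have u := upper hx hxy h hm hm3 hz
    have hpos : 0 < m * (m - 2) := by
      have : 0 < m - 2 := by linarith
      positivity
    have hz1 : z ^ 2 ≤ m * (m - 2) := Int.le_of_dvd hpos d1
    have u2 : 2 * (x ^ 2 - 1) < m := by
      have : 2 * (x ^ 2 - 1) * m < m * m := by nlinarith
      exact lt_of_mul_lt_mul_right this hm0.le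
    have key : z ^ 2 * (z ^ 2 - 2 - (l ^ 2 + 2) * (x ^ 2 - 1)) = 2 * (x ^ 2 - 1) * m - x ^ 4 := by
      have hy : y = x + z * l := by linarith
      subst hm
      subst hy
      linear_combination -h
    have lo : 0 < 2 * (x ^ 2 - 1) * m - x ^ 4 := by
      have a1 : (4 : ℤ) ≤ x ^ 2 := by nlinarith
      have a2 : 2 * (x ^ 2 - 1) * (2 * (x ^ 2 - 1)) ≤ 2 * (x ^ 2 - 1) * m :=
        mul_le_mul_of_nonneg_left u2.le (by linarith)
      nlinarith
    have hi : 2 * (x ^ 2 - 1) * m - x ^ 4 < z ^ 2 := by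
      have : 0 < x ^ 4 := by positivity
      linarith
    rw [← key] at lo hi
    have hz2 : 0 < z ^ 2 := by positivity
    have r0 : 0 < z ^ 2 - 2 - (l ^ 2 + 2) * (x ^ 2 - 1) := (mul_pos_iff_of_pos_left hz2).mp lo
    nlinarith

lemma caseB {x y z : ℤ} (hx : 2 ≤ x) (hxy : x < y) (hz : 2 ≤ z)
    (h : (x ^ 2 - 1) * (y ^ 2 - 1) = (z ^ 2 - 1) ^ 2) (hd : z ∣ y + x) : False := by
  obtain ⟨m, hm⟩ : ∃ m, m = x * y - z ^ 2 := ⟨_, rfl⟩
  have hm0 : 0 < m := by rw [hm]; exact basic hx hxy h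
  obtain ⟨l, hl⟩ := hd
  have e1 : (m + 2) * (m + 2 * z ^ 2) = (y + x) ^ 2 := by
    subst hm; linear_combination h
  have d1 : z ^ 2 ∣ m * (m + 2) := by
    refine ⟨l ^ 2 - 2 * (m + 2), ?_⟩
    rw [hl] at e1
    linear_combination e1
  have hz1 : z ^ 2 ≤ m * (m + 2) := Int.le_of_dvd (by positivity) d1
  have hzm : z ≤ m := by
    have : z ^ 2 < (m + 1) ^ 2 := by nlinarith
    have := lt_of_pow_lt_pow_left₀ 2 (by linarith) this
    omega
  rcases lt_trichotomy m 2 with h2 | h2 | h2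
  · linarith
  · have hz2 : z = 2 := by omega
    subst hz2
    have a1 : (3 : ℤ) ≤ x ^ 2 - 1 := by nlinarith
    have a2 : (8 : ℤ) ≤ y ^ 2 - 1 := by nlinarith
    have := mul_le_mul a1 a2 (by norm_num) (by linarith)
    rw [h] at this
    norm_num at this
  · have hm3 : 3 ≤ m := h2
    have u := upper hx hxy h hm hm3 hz
    have u2 : 2 * (x ^ 2 - 1) < m := by
      have : 2 * (x ^ 2 - 1) * m < m * m := by nlinarith
      exact lt_of_mul_lt_mul_right this hm0.le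
    have key : z ^ 2 * ((l ^ 2 - 2) * (x ^ 2 - 1) - z ^ 2 + 2) =
        2 * (x ^ 2 - 1) * m + x ^ 4 := by
      have hy : y = z * l - x := by linarith
      subst hm
      subst hy
      linear_combination h
    have a1 : (4 : ℤ) ≤ x ^ 2 := by nlinarith
    have lo : 0 < 2 * (x ^ 2 - 1) * m + x ^ 4 := by
      have : 0 < x ^ 2 - 1 := by linarith
      positivity
    have a3 : x ^ 4 < z ^ 2 := by
      have a2 : 2 * (x ^ 2 - 1) * (2 * (x ^ 2 - 1)) ≤ 2 * (x ^ 2 - 1) * m :=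
        mul_le_mul_of_nonneg_left u2.le (by linarith)
      nlinarith
    have hi : 2 * (x ^ 2 - 1) * m + x ^ 4 < 2 * z ^ 2 := by linarith
    rw [← key] at lo hi
    have hz2 : 0 < z ^ 2 := by positivity
    have r0 : 0 < (l ^ 2 - 2) * (x ^ 2 - 1) - z ^ 2 + 2 := (mul_pos_iff_of_pos_left hz2).mp lo
    have r1 : (l ^ 2 - 2) * (x ^ 2 - 1) - z ^ 2 + 2 < 2 := by
      by_contra hc
      push Not at hc
      nlinarith
    have r2 : (l ^ 2 - 2) * (x ^ 2 - 1) - z ^ 2 + 2 = 1 := by omega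
    rw [r2, mul_one] at key
    -- the remaining equation `z ^ 2 = 2 (x ^ 2 - 1) m + x ^ 4`
    have k1 : 2 * (x ^ 2 - 1) * (x * y) = (2 * x ^ 2 - 1) * z ^ 2 - x ^ 4 := by
      rw [hm] at key
      linear_combination -key
    have k2 : (z ^ 2 - (2 * (x ^ 2) ^ 3 - 5 * (x ^ 2) ^ 2 + 4 * x ^ 2)) ^ 2 =
        (2 * x ^ 2 * (x ^ 2 - 1)) ^ 2 * ((x ^ 2) ^ 2 - 3 * x ^ 2 + 3) := by
      have k3 : (2 * (x ^ 2 - 1) * (x * y)) ^ 2 - 4 * x ^ 2 * (x ^ 2 - 1) ^ 2 =
          4 * x ^ 2 * (x ^ 2 - 1) * (z ^ 2 - 1) ^ 2 := by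
        linear_combination 4 * x ^ 2 * (x ^ 2 - 1) * h
      rw [k1] at k3
      linear_combination k3
    have k4 : (2 * x ^ 2 * (x ^ 2 - 1)) ∣
        (z ^ 2 - (2 * (x ^ 2) ^ 3 - 5 * (x ^ 2) ^ 2 + 4 * x ^ 2)) := by
      rw [← Int.pow_dvd_pow_iff two_ne_zero, k2]
      exact dvd_mul_right _ _
    obtain ⟨q, hq⟩ := k4
    rw [hq, mul_pow] at k2
    have hne : (2 * x ^ 2 * (x ^ 2 - 1)) ^ 2 ≠ 0 := by
      have : 0 < x ^ 2 - 1 := by linarith
      positivity
    have k5 : q ^ 2 = (x ^ 2) ^ 2 - 3 * x ^ 2 + 3 := mul_left_cancel₀ hne k2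
    obtain ⟨X, hX⟩ : ∃ X, X = x ^ 2 := ⟨_, rfl⟩
    rw [← hX] at k5 a1
    have k6 : (X - 2) ^ 2 < |q| ^ 2 := by rw [sq_abs, k5]; nlinarith
    have k7 : |q| ^ 2 < (X - 1) ^ 2 := by rw [sq_abs, k5]; nlinarith
    have k8 := lt_of_pow_lt_pow_left₀ 2 (abs_nonneg q) k6
    have k9 := lt_of_pow_lt_pow_left₀ 2 (by linarith) k7
    omega

/-- Every integer solution with `z ∣ x - y` has `|x| = |y|`, or `|z| = 1`, or
`|x - y| = 2|z|`. -/
lemma main {x y z : ℤ} (h : (x ^ 2 - 1) * (y ^ 2 - 1) = (z ^ 2 - 1) ^ 2)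
    (hd : z ∣ x - y) : |x| = |y| ∨ |z| = 1 ∨ |x - y| = 2 * |z| := by
  by_contra hcon
  push Not at hcon
  obtain ⟨h1, h2, h3⟩ := hcon
  have hz0 : z ≠ 0 := by
    rintro rfl
    rw [zero_dvd_iff, sub_eq_zero] at hd
    exact h1 (by rw [hd])
  have hz : 2 ≤ |z| := by
    have : 0 < |z| := abs_pos.mpr hz0
    omega
  have H : (|x| ^ 2 - 1) * (|y| ^ 2 - 1) = (|z| ^ 2 - 1) ^ 2 := by simpa only [sq_abs] using h
  have hR : 9 ≤ (|z| ^ 2 - 1) ^ 2 := by
    have : 3 ≤ |z| ^ 2 - 1 := by nlinarith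
    nlinarith
  have big : ∀ u v : ℤ, 0 ≤ u → 0 ≤ v → (u ^ 2 - 1) * (v ^ 2 - 1) = (|z| ^ 2 - 1) ^ 2 → 2 ≤ u := by
    intro u v hu hv huv
    by_contra hc
    push Not at hc
    have : u = 0 ∨ u = 1 := by omega
    rcases this with rfl | rfl
    · nlinarith [sq_nonneg v]
    · rw [← huv] at hR
      norm_num at hR
  have hx := big |x| |y| (abs_nonneg _) (abs_nonneg _) H
  have hy := big |y| |x| (abs_nonneg _) (abs_nonneg _) (by rw [mul_comm]; exact H)
  have hd' : |z| ∣ |x - y| := (abs_dvd_abs z (x - y)).mpr hd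
  have hd3 : |x - y| = |(|x| - |y|)| ∨ |x - y| = |x| + |y| := by
    rcases abs_cases x with ⟨a, b⟩ | ⟨a, b⟩ <;> rcases abs_cases y with ⟨c, d⟩ | ⟨c, d⟩ <;>
      rcases abs_cases (x - y) with ⟨e, f⟩ | ⟨e, f⟩ <;>
      rcases abs_cases (|x| - |y|) with ⟨g, i⟩ | ⟨g, i⟩ <;> omega
  rcases lt_or_gt_of_ne h1 with hlt | hlt
  · rcases hd3 with e | e
    · have e' : |x - y| = |y| - |x| := by rw [e, abs_sub_comm, abs_of_pos (by linarith)]
      rw [e'] at hd' h3
      exact h3 (caseA hx hlt hz H hd')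
    · rw [e, add_comm] at hd'
      exact caseB hx hlt hz H hd'
  · have H' : (|y| ^ 2 - 1) * (|x| ^ 2 - 1) = (|z| ^ 2 - 1) ^ 2 := by rw [mul_comm]; exact H
    rcases hd3 with e | e
    · have e' : |x - y| = |x| - |y| := by rw [e, abs_of_pos (by linarith)]
      rw [e'] at hd' h3
      exact h3 (caseA hy hlt hz H' hd')
    · rw [e] at hd'
      exact caseB hy hlt hz H' hd'

/-- Consequence: for every integer `l` other than `2` and `-2`, every integer solution of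
`(x^2-1)(y^2-1) = (z^2-1)^2` with `x - y = l z` satisfies `|x| = |y|` or `|z| = 1`. -/
lemma no_other_ratio (l x y z : ℤ) (hl : l ≠ 2) (hl' : l ≠ -2)
    (h : (x ^ 2 - 1) * (y ^ 2 - 1) = (z ^ 2 - 1) ^ 2) (hxy : x - y = l * z) :
    |x| = |y| ∨ |z| = 1 := by
  rcases main h ⟨l, by rw [hxy, mul_comm]⟩ with h1 | h1 | h1
  · exact Or.inl h1
  · exact Or.inr h1
  · rw [hxy, abs_mul] at h1
    by_cases hz : z = 0
    · subst hz
      left
      rw [mul_zero, sub_eq_zero] at hxy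
      rw [hxy]
    · exfalso
      have : |l| = 2 := mul_right_cancel₀ (abs_ne_zero.mpr hz) h1
      rcases (abs_eq (by norm_num)).mp this with h | h
      · exact hl h
      · exact hl' h

/-- The complete list of the integer solutions of `(x^2-1)(y^2-1) = (z^2-1)^2` for which
`z` divides `x - y`. -/
theorem result (x y z : ℤ) (hd : z ∣ x - y) :
    (x ^ 2 - 1) * (y ^ 2 - 1) = (z ^ 2 - 1) ^ 2 ↔
      (|x| = |z| ∧ |y| = |z|) ∨
      (|z| = 1 ∧ (|x| = 1 ∨ |y| = 1)) ∨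
      (∃ t : ℤ, z ^ 2 - 2 * t ^ 2 = -1 ∧
        ((x = 2 * t + z ∧ y = 2 * t - z) ∨ (x = 2 * t - z ∧ y = 2 * t + z))) := by
  constructor
  · intro h
    rcases main h hd with h1 | h1 | h1
    · left
      have hxy : x ^ 2 = y ^ 2 := sq_eq_sq_iff_abs_eq_abs _ _ |>.mpr h1
      have h2 : (z ^ 2 - x ^ 2) * (z ^ 2 + x ^ 2 - 2) = 0 := by
        rw [← hxy] at h
        linear_combination -h
      have h3 : z ^ 2 = x ^ 2 := by
        rcases mul_eq_zero.mp h2 with h3 | h3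
        · linarith
        · have hx3 : |x| ≤ 1 := by
            by_contra hc
            push Not at hc
            have : 4 ≤ |x| ^ 2 := by nlinarith
            rw [sq_abs] at this
            nlinarith [sq_nonneg z]
          have hz3 : |z| ≤ 1 := by
            by_contra hc
            push Not at hc
            have : 4 ≤ |z| ^ 2 := by nlinarith
            rw [sq_abs] at this
            nlinarith [sq_nonneg x]
          rw [abs_le] at hx3 hz3
          obtain ⟨a1, a2⟩ := hx3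
          obtain ⟨b1, b2⟩ := hz3
          clear h h1 hxy hd h2
          interval_cases x <;> interval_cases z <;> omega
      have h4 : |z| = |x| := sq_eq_sq_iff_abs_eq_abs _ _ |>.mp h3
      exact ⟨h4.symm, by rw [h4, h1]⟩
    · right; left
      refine ⟨h1, ?_⟩
      have hz : z ^ 2 = 1 := by rw [← sq_abs, h1]; norm_num
      rw [hz] at h
      have h2 : (x ^ 2 - 1) * (y ^ 2 - 1) = 0 := by rw [h]; norm_num
      rcases mul_eq_zero.mp h2 with h3 | h3
      · left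
        have : x ^ 2 = 1 ^ 2 := by linarith
        simpa using (sq_eq_sq_iff_abs_eq_abs _ _).mp this
      · right
        have : y ^ 2 = 1 ^ 2 := by linarith
        simpa using (sq_eq_sq_iff_abs_eq_abs _ _).mp this
    · by_cases hxz : |x| = |z| ∧ |y| = |z|
      · exact Or.inl hxz
      right; right
      have h2 : (x - y) ^ 2 = (2 * z) ^ 2 := by
        rw [sq_eq_sq_iff_abs_eq_abs, h1, abs_mul]
        norm_num
      -- `(x y - 1)^2 = (z^2 + 1)^2`
      have h3 : (x * y + z ^ 2) * (x * y - z ^ 2 - 2) = 0 := by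
        linear_combination h + h2
      rcases mul_eq_zero.mp h3 with h4 | h4
      · exfalso
        -- then `x + y = 0`
        have h5 : (x + y) ^ 2 = 0 := by linear_combination h2 + 4 * h4
        have h6 : x = -y := by
          have := pow_eq_zero_iff (two_ne_zero) |>.mp h5
          linarith
        subst h6
        have h7 : y ^ 2 = z ^ 2 := by linear_combination -h4
        have h8 := (sq_eq_sq_iff_abs_eq_abs _ _).mp h7
        exact hxz ⟨by rw [abs_neg, h8], h8⟩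
      · have h5 : (x + y) ^ 2 = 8 * (z ^ 2 + 1) := by linear_combination h2 + 4 * h4
        obtain ⟨w, hw⟩ : ∃ w, x + y = 2 * w := by
          have : Even ((x + y) ^ 2) := by rw [h5]; exact ⟨4 * (z ^ 2 + 1), by ring⟩
          rw [Int.even_pow' two_ne_zero] at this
          obtain ⟨w, hw⟩ := this
          exact ⟨w, by linarith⟩
        rw [hw] at h5
        obtain ⟨t, ht⟩ : ∃ t, w = 2 * t := by
          have : Even (w ^ 2) := ⟨z ^ 2 + 1, by linarith⟩
          rw [Int.even_pow' two_ne_zero] at this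
          obtain ⟨w, hw⟩ := this
          exact ⟨w, by linarith⟩
        refine ⟨t, ?_, ?_⟩
        · rw [ht] at h5
          linarith
        · rcases sq_eq_sq_iff_eq_or_eq_neg.mp h2 with h6 | h6
          · left; constructor <;> linarith
          · right; constructor <;> linarith
  · rintro (⟨h1, h2⟩ | ⟨h1, h2 | h2⟩ | ⟨t, ht, ⟨h1, h2⟩ | ⟨h1, h2⟩⟩)
    · have a : x ^ 2 = z ^ 2 := (sq_eq_sq_iff_abs_eq_abs _ _).mpr h1
      have b : y ^ 2 = z ^ 2 := (sq_eq_sq_iff_abs_eq_abs _ _).mpr h2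
      rw [a, b]; ring
    · have a : x ^ 2 = 1 := by rw [← sq_abs, h2]; norm_num
      have b : z ^ 2 = 1 := by rw [← sq_abs, h1]; norm_num
      rw [a, b]; ring
    · have a : y ^ 2 = 1 := by rw [← sq_abs, h2]; norm_num
      have b : z ^ 2 = 1 := by rw [← sq_abs, h1]; norm_num
      rw [a, b]; ring
    · subst h1; subst h2
      have : z ^ 2 = 2 * t ^ 2 - 1 := by linarith
      have e : ((2 * t + z) ^ 2 - 1) * ((2 * t - z) ^ 2 - 1) =
        ((4 * t ^ 2 + z ^ 2 - 1) ^ 2 - 16 * t ^ 2 * z ^ 2) := by ring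
      rw [e, this]; ring
    · subst h1; subst h2
      have : z ^ 2 = 2 * t ^ 2 - 1 := by linarith
      have e : ((2 * t - z) ^ 2 - 1) * ((2 * t + z) ^ 2 - 1) =
        ((4 * t ^ 2 + z ^ 2 - 1) ^ 2 - 16 * t ^ 2 * z ^ 2) := by ring
      rw [e, this]; ring

end Pool.Agent.Results.MP_b95629_nt.IntegerRatio
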